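import Pool.Agent.H82.BO.Targets

/-!
MP_c62aed_lc, cutting planes with the optimal exponent: few families are not good (row YX).
-/

set_option autoImplicit false

namespace Pool.Agent.H57.BOP

open Finset Pool.Agent.H82.BO
open Pool.Agent.H15.FLC (Half Violates)

theorem pf_YX (hYUN : T_YUN) (hVOL : T_VOL) (hFAR : T_FAR) : T_YX := by
  classical
  intro n l M μ w q z ε lam hε hε1 hlam0 hlam1 hμ hη hz hfin
  have hη0 : 0 ≤ ε ^ 2 / 4 := by positivity
  have hη1 : ε ^ 2 / 4 ≤ 1 := by nlinarith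
  have hU := hYUN n l M μ z q (ε ^ 2 / 4) lam hη0 hη1 hlam0 hlam1 hμ hη
  have hle : Nat.card {D : Fin M × Fin μ → Half n l // ¬ YG D w q} ≤
      Nat.card {D : Fin M × Fin μ → Half n l // ∃ (T : Finset (Fin M))
        (y : Fin z → Fin n → Bool), T.card = q + 1 ∧
        (∀ a b, a ≠ b → ε ^ 2 / 4 * n ≤ hammingDist (y a) (y b)) ∧
        ∀ i ∈ T, ∀ a, i ∈ RG D (y a)} := by
    refine Nat.card_le_card_of_injective
      (fun D => ⟨D.1, ?_⟩) fun D D' h => Subtype.ext (by simpa using h)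
    have hD := D.2
    unfold YG at hD
    push Not at hD
    obtain ⟨T, hT, hc⟩ := hD
    set Y : Finset (Fin n → Bool) := univ.filter fun y => ∀ i ∈ T, i ∈ RG D.1 y with hY
    have hYc : Nat.card {y : Fin n → Bool // ∀ i ∈ T, i ∈ RG D.1 y} = Y.card := by
      rw [Nat.card_eq_fintype_card, Fintype.card_subtype]
    rw [hYc] at hc
    have hcr : (2 : ℝ) ^ (n - w) < Y.card := by exact_mod_cast hc
    obtain ⟨y, hy1, hy2⟩ := hFAR n z (ε ^ 2 / 4 * n) ((2 : ℝ) ^ (ε * n)) Y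
      (fun y => hVOL n ε y hε hε1) (lt_of_le_of_lt hz hcr)
    refine ⟨T, y, hT, hy2, fun i hi a => ?_⟩
    have h1 := hy1 a
    rw [hY, mem_filter] at h1
    exact h1.2 i hi
  have hN : (0 : ℝ) ≤ (Nat.card (Fin M × Fin μ → Half n l) : ℝ) := Nat.cast_nonneg _
  have h2 : ((2 ^ (n + 1) * Nat.card {D : Fin M × Fin μ → Half n l // ¬ YG D w q} : ℕ) : ℝ) ≤
      (Nat.card (Fin M × Fin μ → Half n l) : ℝ) := by
    push_cast
    calc (2 : ℝ) ^ (n + 1) * (Nat.card {D : Fin M × Fin μ → Half n l // ¬ YG D w q} : ℝ)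
        ≤ (2 : ℝ) ^ (n + 1) * ((M : ℝ) ^ (q + 1) * (2 ^ n) ^ z *
            ((z : ℝ) ^ z * lam ^ z) ^ (q + 1) *
            (Nat.card (Fin M × Fin μ → Half n l) : ℝ)) := by
          refine mul_le_mul_of_nonneg_left (le_trans ?_ hU) (by positivity)
          exact_mod_cast hle
      _ = ((M : ℝ) ^ (q + 1) * (2 ^ n) ^ z * ((z : ℝ) ^ z * lam ^ z) ^ (q + 1) * 2 ^ (n + 1)) *
            (Nat.card (Fin M × Fin μ → Half n l) : ℝ) := by ring
      _ ≤ 1 * (Nat.card (Fin M × Fin μ → Half n l) : ℝ) :=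
          mul_le_mul_of_nonneg_right hfin hN
      _ = _ := one_mul _
  exact_mod_cast h2

end Pool.Agent.H57.BOP
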